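import Pool.Agent.H62.Au5

set_option autoImplicit false

namespace Pool.Agent.Results.MP_c1eef4_lc.Counter

open FirstOrder FirstOrder.Language Pool.Agent.H62.Td Pool.Agent.H62.Au

theorem result : ∃ (L : FirstOrder.Language.{0, 0}) (S : Sig L) (T : L.Theory),
    T.IsMaximal ∧ Cardinal.Categorical Cardinal.aleph0.{0} T ∧
    TuringReducible (ora (gn S T)) (ora (zn 1)) ∧
    ¬TuringReducible (ora (tgraph T)) (ora (zn 1)) ∧
    ∃ (A : Type) (_ : L.Structure A), A ⊨ T ∧ Infinite A ∧ CompStr S A ∧ Autostable S A :=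
  ⟨LL, SG, TT, completeTheory.isMaximal _ _, rn0.1, th_le, ty_nle, ℕ, inferInstance,
    inferInstance, inferInstance, ⟨id, pres⟩, autost⟩

end Pool.Agent.Results.MP_c1eef4_lc.Counter
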